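import Pool.Agent.helper67.RG.Spec3

/-!
# Row IDP: from an open subgroup to `Arises`
-/

namespace Pool.Agent.RG.IDP

open Matrix Polynomial Pool.Agent.GO Pool.Agent.AR Kronecker Pool.Agent.RG

/-- reindexing a subquotient -/
theorem reindex_subquotient {Γ F κ κ' d : Type*} [Field F] [Fintype κ] [Fintype κ'] [Fintype d]
    (ε : κ ≃ κ') (ρ : Γ → Matrix d d F) (T : Γ → Matrix κ κ F) (T' : Γ → Matrix κ' κ' F)
    (hT : ∀ g a b, T' g (ε a) (ε b) = T g a b) (h : IsSubquotient ρ T) : IsSubquotient ρ T' := by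
  obtain ⟨Q, hQ, π, hsurj, heq⟩ := h
  let L : (κ' → F) →ₗ[F] (κ → F) := LinearMap.funLeft F F ε
  have hL : ∀ f a, L f a = f (ε a) := fun f a => rfl
  have hLT : ∀ g f, L (T' g *ᵥ f) = T g *ᵥ (L f) := by
    intro g f
    funext a
    rw [hL]
    simp only [Matrix.mulVec, dotProduct]
    rw [← Equiv.sum_comp ε]
    refine Finset.sum_congr rfl fun b _ => ?_
    rw [hT, hL]
  let L' : (κ → F) →ₗ[F] (κ' → F) := LinearMap.funLeft F F ε.symm
  have hLL : ∀ f, L (L' f) = f := by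
    intro f
    funext a
    show f (ε.symm (ε a)) = f a
    rw [Equiv.symm_apply_apply]
  refine ⟨Q.comap L, ?_, π.comp (L.restrict (p := Q.comap L) (q := Q) fun x hx => hx), ?_, ?_⟩
  · intro g x hx
    rw [Submodule.mem_comap] at hx ⊢
    rw [hLT]
    exact hQ g _ hx
  · intro y
    obtain ⟨⟨x, hx⟩, rfl⟩ := hsurj y
    refine ⟨⟨L' x, ?_⟩, ?_⟩
    · rw [Submodule.mem_comap, hLL]
      exact hx
    · rw [LinearMap.comp_apply]
      congr 1
      apply Subtype.ext
      exact hLL x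
  · intro g x
    have h1 := heq g ⟨L x.1, x.2⟩
    rw [LinearMap.comp_apply, LinearMap.comp_apply]
    refine Eq.trans ?_ h1
    congr 1
    apply Subtype.ext
    exact hLT g x.1

theorem IDP : IDP_stmt := by
  intro Γ F _ _ _ _ _ r n V ρ h
  classical
  obtain ⟨U, hU, i, hi⟩ := h
  have hfin : Finite (Γ ⧸ U) := U.quotient_finite_of_isOpen hU
  let inst : Fintype (Γ ⧸ U) := Fintype.ofFinite _
  have h1 := IND (V i) ρ U hi
  let e : (Γ ⧸ U) ≃ Fin (Fintype.card (Γ ⧸ U)) := Fintype.equivFin _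
  let τ : Γ →* Equiv.Perm (Fin (Fintype.card (Γ ⧸ U))) :=
    (e.permCongrHom : Equiv.Perm (Γ ⧸ U) ≃* _).toMonoidHom.comp (MulAction.toPermHom Γ (Γ ⧸ U))
  have hτ : ∀ g y, τ g y = e (g • e.symm y) := fun g y => rfl
  refine ⟨i, Fintype.card (Γ ⧸ U), τ, ?_, ?_⟩
  · have h2 : (τ.ker : Set Γ) = ⋂ x : Γ ⧸ U, {g : Γ | x.out⁻¹ * (g * x.out) ∈ U} := by
      ext g
      rw [SetLike.mem_coe, MonoidHom.mem_ker, Set.mem_iInter]
      have h3 : ∀ x : Γ ⧸ U, g • x = x ↔ x.out⁻¹ * (g * x.out) ∈ U := by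
        intro x
        rw [← QuotientGroup.eq, QuotientGroup.out_eq']
        have h4 : ((g * x.out : Γ) : Γ ⧸ U) = g • ((x.out : Γ) : Γ ⧸ U) := rfl
        rw [h4, QuotientGroup.out_eq']
        exact eq_comm
      constructor
      · intro hg x
        apply (h3 x).1
        have h5 := hτ g (e x)
        rw [hg, Equiv.symm_apply_apply] at h5
        exact (e.injective h5).symm
      · intro hg
        ext y
        have h5 := (h3 (e.symm y)).2 (hg (e.symm y))
        rw [hτ, h5, Equiv.apply_symm_apply]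
        rfl
    rw [h2]
    apply isOpen_iInter_of_finite
    intro x
    have h6 : Continuous fun g : Γ => x.out⁻¹ * (g * x.out) := by fun_prop
    exact hU.preimage h6
  · refine reindex_subquotient ((Equiv.refl _).prodCongr e) _ _ _ ?_ h1
    rintro g ⟨a, x⟩ ⟨b, y⟩
    show V i g a b * (Matrix.of fun x y : Fin _ => if x = τ g y then (1 : F) else 0) (e x) (e y) =
      V i g a b * (permM F g : Matrix (Γ ⧸ U) (Γ ⧸ U) F) x y
    congr 1
    simp only [Matrix.of_apply, permM, hτ, Equiv.symm_apply_apply, EmbeddingLike.apply_eq_iff_eq]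

end Pool.Agent.RG.IDP
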