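import Pool.Agent.helper67.RG.Spec

/-!
# Row BUR: Burnside's theorem
-/

namespace Pool.Agent.RG.BUR

open Matrix Pool.Agent.GO Pool.Agent.AR

/-- **Burnside's theorem** -/
theorem BUR : BUR_stmt := by
  intro F Γ m _ _ _ _ _ W hW
  -- the algebra
  set A : Subalgebra F (Matrix m m F) := Algebra.adjoin F (Set.range W) with hA
  have hspan : Subalgebra.toSubmodule A = Submodule.span F (Set.range W) := by
    rw [hA, Algebra.adjoin_eq_span]
    congr 1
    have h1 : (Set.range W : Set (Matrix m m F)) = ((MonoidHom.mrange W : Submonoid (Matrix m m F)) :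
        Set (Matrix m m F)) := by
      rw [MonoidHom.coe_mrange]
    rw [h1, Submonoid.closure_eq]
  rw [← hspan]
  have hWA : ∀ g, W g ∈ A := fun g => Algebra.subset_adjoin ⟨g, rfl⟩
  -- the module
  have hsm : ∀ (a : A) (v : m → F), a • v = (a : Matrix m m F) *ᵥ v := fun a v => rfl
  have hsc : ∀ (c : F) (v : m → F), (algebraMap F A c) • v = c • v := fun c v => by
    rw [hsm, Subalgebra.coe_algebraMap, Matrix.algebraMap_eq_diagonal]
    ext i
    simp [Matrix.mulVec_diagonal]
  have : IsSimpleModule A (m → F) := by
    have : Nontrivial (m → F) := by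
      have := hW.1
      infer_instance
    rw [isSimpleModule_iff]
    refine { exists_pair_ne := ⟨⊥, ⊤, bot_ne_top⟩, eq_bot_or_eq_top := ?_ }
    intro U
    have hcl : ∀ (c : F) (v : m → F), v ∈ U → c • v ∈ U := fun c v hv => by
      rw [← hsc]
      exact U.smul_mem _ hv
    let U' : Submodule F (m → F) :=
      { carrier := U
        add_mem' := fun ha hb => U.add_mem ha hb
        zero_mem' := U.zero_mem
        smul_mem' := hcl }
    rcases hW.2 U' (by
      intro g u hu
      show W g *ᵥ u ∈ U
      have := U.smul_mem ⟨W g, hWA g⟩ (show u ∈ U from hu)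
      rwa [hsm] at this) with h | h
    · left
      rw [eq_bot_iff]
      intro x hx
      have h1 : x ∈ U' := hx
      rw [h, Submodule.mem_bot] at h1
      rw [h1]
      exact Submodule.zero_mem _
    · right
      rw [eq_top_iff]
      intro x _
      have h1 : x ∈ U' := by rw [h]; trivial
      exact h1
  have hschur : ∀ ψ : Module.End A (m → F), ∃ c : F, ∀ v, ψ v = c • v := by
    intro ψ
    let ψ' : (m → F) →ₗ[F] (m → F) :=
      { toFun := ψ
        map_add' := ψ.map_add
        map_smul' := fun c v => by
          rw [← hsc, ψ.map_smul, hsc]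
          rfl }
    obtain ⟨c, hc⟩ := schur (fun g => W g) hW (LinearMap.toMatrix' ψ') (by
      intro g
      apply Matrix.toLin'.injective
      rw [Matrix.toLin'_mul, Matrix.toLin'_mul, Matrix.toLin'_toMatrix']
      apply LinearMap.ext
      intro v
      rw [LinearMap.comp_apply, LinearMap.comp_apply, Matrix.toLin'_apply, Matrix.toLin'_apply]
      exact (ψ.map_smul (⟨W g, hWA g⟩ : A) v).symm)
    refine ⟨c, fun v => ?_⟩
    have h1 : ψ' v = (LinearMap.toMatrix' ψ') *ᵥ v := by
      rw [← Matrix.toLin'_apply, Matrix.toLin'_toMatrix']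
    show ψ' v = _
    rw [h1, hc, Matrix.smul_mulVec, Matrix.one_mulVec]
  rw [eq_top_iff]
  intro N _
  -- the endomorphism over `End A M`
  let f : Module.End (Module.End A (m → F)) (m → F) :=
    { toFun := fun v => N *ᵥ v
      map_add' := fun v w => Matrix.mulVec_add N v w
      map_smul' := fun ψ v => by
        obtain ⟨c, hc⟩ := hschur ψ
        rw [RingHom.id_apply, Module.End.smul_def, Module.End.smul_def, hc, hc, Matrix.mulVec_smul] }
  classical
  obtain ⟨r, hr⟩ := jacobson_density f (Finset.univ.image fun i : m => (Pi.single i 1 : m → F))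
  have h1 : N = (r : Matrix m m F) := by
    ext i j
    have h2 := hr (Pi.single j 1) (Finset.mem_image_of_mem _ (Finset.mem_univ j))
    rw [hsm] at h2
    have h3 : N *ᵥ Pi.single j 1 = (r : Matrix m m F) *ᵥ Pi.single j 1 := h2
    have h4 := congrFun h3 i
    rw [Matrix.mulVec_single_one, Matrix.mulVec_single_one] at h4
    exact h4
  rw [h1]
  exact r.2

end Pool.Agent.RG.BUR
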