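import Pool.Agent.helper93.RG.Spec
import Pool.Agent.helper74.TG.SW

/-! # Project rg: row SWE (primes congruent to 1 modulo small numbers) -/

set_option autoImplicit false

namespace Pool.Agent.RG

open Finset ArithmeticFunction

theorem SWE_log3 (x : ℝ) (hx : 1 ≤ x) : Real.log x ^ 3 ≤ 1728 * x ^ (1 / 4 : ℝ) := by
  have h0 : (0 : ℝ) ≤ x := by linarith
  have h1 : Real.log x ≤ x ^ (1 / 12 : ℝ) / (1 / 12) := Real.log_le_rpow_div h0 (by norm_num)
  have h2 : 0 ≤ Real.log x := Real.log_nonneg hx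
  have h3 : Real.log x ^ 3 ≤ (x ^ (1 / 12 : ℝ) / (1 / 12)) ^ 3 := pow_le_pow_left₀ h2 h1 3
  refine h3.trans (le_of_eq ?_)
  rw [div_pow, ← Real.rpow_natCast (x ^ (1 / 12 : ℝ)) 3, ← Real.rpow_mul h0]
  norm_num
  ring

theorem SWE_small (x : ℝ) (hx : (41472 : ℝ) ^ 4 ≤ x) :
    2 * Real.sqrt (2 * x) * Real.log (2 * x) ≤ x / (4 * Real.log x ^ 2) := by
  have hx1 : (1 : ℝ) ≤ x := le_trans (by norm_num) hx
  have hx2 : (2 : ℝ) ≤ x := le_trans (by norm_num) hx
  have h0 : (0 : ℝ) < x := by linarith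
  have hl : 0 < Real.log x := Real.log_pos (by linarith)
  have h1 : Real.log (2 * x) ≤ 2 * Real.log x := by
    rw [Real.log_mul (by norm_num) h0.ne']
    have := Real.log_le_log (by norm_num) hx2
    linarith
  have h2 : Real.sqrt (2 * x) ≤ 3 / 2 * Real.sqrt x := by
    rw [Real.sqrt_mul (by norm_num)]
    have : Real.sqrt 2 ≤ 3 / 2 := by
      rw [Real.sqrt_le_left (by norm_num)]
      norm_num
    exact mul_le_mul_of_nonneg_right this (Real.sqrt_nonneg x)
  have h3 := SWE_log3 x hx1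
  have h4 : (41472 : ℝ) ≤ x ^ (1 / 4 : ℝ) := by
    have := Real.rpow_le_rpow (by norm_num) hx (by norm_num : (0 : ℝ) ≤ 1 / 4)
    rwa [← Real.rpow_natCast, ← Real.rpow_mul (by norm_num), (by norm_num : ((4 : ℕ) : ℝ) * (1 / 4) = 1),
      Real.rpow_one] at this
  have h5 : Real.sqrt x * x ^ (1 / 4 : ℝ) * x ^ (1 / 4 : ℝ) = x := by
    rw [Real.sqrt_eq_rpow, ← Real.rpow_add h0, ← Real.rpow_add h0]
    norm_num
  rw [le_div_iff₀ (by positivity)]
  have hs := Real.sqrt_nonneg x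
  have hq : 0 ≤ x ^ (1 / 4 : ℝ) := Real.rpow_nonneg h0.le _
  have hll : 0 ≤ Real.log (2 * x) := Real.log_nonneg (by linarith)
  calc 2 * Real.sqrt (2 * x) * Real.log (2 * x) * (4 * Real.log x ^ 2)
      ≤ 2 * (3 / 2 * Real.sqrt x) * (2 * Real.log x) * (4 * Real.log x ^ 2) := by
        gcongr
    _ = 24 * (Real.sqrt x * Real.log x ^ 3) := by ring
    _ ≤ 24 * (Real.sqrt x * (1728 * x ^ (1 / 4 : ℝ))) := by gcongr
    _ = Real.sqrt x * x ^ (1 / 4 : ℝ) * 41472 := by ring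
    _ ≤ Real.sqrt x * x ^ (1 / 4 : ℝ) * x ^ (1 / 4 : ℝ) := by gcongr
    _ = x := h5

theorem SWE_primes (x e : ℕ) (hx : 1 ≤ x) :
    (∑ n ∈ Ioc x (2 * x) with n ≡ 1 [MOD e], vonMangoldt n) ≤
      (((Ioc x (2 * x)).filter fun p => p.Prime ∧ p ≡ 1 [MOD e]).card : ℝ) * Real.log (2 * x) +
        2 * Real.sqrt (2 * x) * Real.log (2 * x) := by
  have h1 : (∑ n ∈ Ioc x (2 * x) with n ≡ 1 [MOD e], vonMangoldt n) =
      (∑ n ∈ (Ioc x (2 * x)).filter fun p => p.Prime ∧ p ≡ 1 [MOD e], vonMangoldt n) +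
      ∑ n ∈ (Ioc x (2 * x)).filter fun p => ¬ p.Prime ∧ p ≡ 1 [MOD e], vonMangoldt n := by
    rw [← Finset.sum_union]
    · refine Finset.sum_congr ?_ fun _ _ => rfl
      ext n
      simp only [Finset.mem_filter, Finset.mem_union]
      tauto
    · rw [Finset.disjoint_left]
      intro n h h'
      simp only [Finset.mem_filter] at h h'
      exact h'.2.1 h.2.1
  rw [h1]
  refine add_le_add ?_ ?_
  · rw [← nsmul_eq_mul]
    refine Finset.sum_le_card_nsmul _ _ _ ?_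
    intro p hp
    simp only [Finset.mem_filter, Finset.mem_Ioc] at hp
    rw [vonMangoldt_apply_prime hp.2.1]
    refine Real.log_le_log (by exact_mod_cast hp.2.1.pos) ?_
    exact_mod_cast hp.1.2
  · have h2 : (1 : ℝ) ≤ ((2 * x : ℕ) : ℝ) := by exact_mod_cast (by omega : 1 ≤ 2 * x)
    have h3 := Chebyshev.psi_sub_theta_le h2
    rw [Chebyshev.psi_sub_theta_eq_sum_not_prime, Nat.floor_natCast] at h3
    have h4 : ((2 * x : ℕ) : ℝ) = 2 * (x : ℝ) := by push_cast; ring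
    rw [h4] at h3
    refine le_trans ?_ h3
    refine Finset.sum_le_sum_of_subset_of_nonneg ?_ fun _ _ _ => vonMangoldt_nonneg
    intro n hn
    simp only [Finset.mem_filter, Finset.mem_Ioc] at hn ⊢
    exact ⟨⟨by omega, hn.1.2⟩, hn.2.1⟩

theorem SWE : SWE_stmt := by
  obtain ⟨C, x₁, hC, hSW⟩ := Pool.Agent.helper74.TG.siegel_walfisz 4 2
  have hev : ∀ᶠ x : ℕ in Filter.atTop, x₁ ≤ (x : ℝ) ∧ (41472 : ℝ) ^ 4 ≤ (x : ℝ) ∧ 4 * Real.sqrt C ≤ Real.log x := by
    have h1 : Filter.Tendsto (fun x : ℕ => (x : ℝ)) Filter.atTop Filter.atTop := tendsto_natCast_atTop_atTop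
    exact (h1.eventually_ge_atTop x₁).and ((h1.eventually_ge_atTop _).and
      ((Real.tendsto_log_atTop.comp h1).eventually_ge_atTop _))
  obtain ⟨x₀, hx₀⟩ := Filter.eventually_atTop.1 hev
  refine ⟨x₀, fun x hx e he hle => ?_⟩
  obtain ⟨hx1, hx2, hx3⟩ := hx₀ x hx
  have hxr : (2 : ℝ) ≤ x := le_trans (by norm_num) hx2
  have hx0 : (0 : ℝ) < x := by linarith
  have hxn : 1 ≤ x := by
    have : (1 : ℝ) ≤ x := by linarith
    exact_mod_cast this
  have hl : 0 < Real.log x := Real.log_pos (by linarith)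
  have hl2 : Real.log x ≤ Real.log (2 * x) := Real.log_le_log hx0 (by linarith)
  have hl3 : Real.log (2 * x) ≤ 2 * Real.log x := by
    rw [Real.log_mul (by norm_num) hx0.ne']
    have := Real.log_le_log (by norm_num) hxr
    linarith
  have hle2 : (e : ℝ) ≤ Real.log (2 * x) ^ 2 := hle.trans (pow_le_pow_left₀ hl.le hl2 2)
  have hA := hSW (2 * x) (by linarith) e he hle2 1 (Nat.coprime_one_left e) (2 * x) (by push_cast; linarith)
  have hB := hSW (2 * x) (by linarith) e he hle2 1 (Nat.coprime_one_left e) x (by linarith)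
  have hdiff : (∑ n ∈ Ioc 0 (2 * x) with n ≡ 1 [MOD e], vonMangoldt n) =
      (∑ n ∈ Ioc 0 x with n ≡ 1 [MOD e], vonMangoldt n) +
        ∑ n ∈ Ioc x (2 * x) with n ≡ 1 [MOD e], vonMangoldt n := by
    rw [← Finset.sum_union]
    · refine Finset.sum_congr ?_ fun _ _ => rfl
      ext n
      simp only [Finset.mem_filter, Finset.mem_union, Finset.mem_Ioc]
      constructor
      · rintro ⟨⟨h1, h2⟩, h3⟩
        rcases le_or_gt n x with h | h
        · exact Or.inl ⟨⟨h1, h⟩, h3⟩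
        · exact Or.inr ⟨⟨h, h2⟩, h3⟩
      · rintro (⟨⟨h1, h2⟩, h3⟩ | ⟨⟨h1, h2⟩, h3⟩)
        · exact ⟨⟨h1, by omega⟩, h3⟩
        · exact ⟨⟨by omega, h2⟩, h3⟩
    · rw [Finset.disjoint_left]
      intro n h h'
      simp only [Finset.mem_filter, Finset.mem_Ioc] at h h'
      omega
  have hP := SWE_primes x e hxn
  set S := ∑ n ∈ Ioc x (2 * x) with n ≡ 1 [MOD e], vonMangoldt n with hS
  set c : ℝ := (((Ioc x (2 * x)).filter fun p => p.Prime ∧ p ≡ 1 [MOD e]).card : ℝ) with hc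
  have her : (0 : ℝ) < e := by exact_mod_cast he
  have hφ : (0 : ℝ) < (Nat.totient e : ℝ) := by exact_mod_cast Nat.totient_pos.2 he
  have hφe : (Nat.totient e : ℝ) ≤ e := by exact_mod_cast Nat.totient_le e
  have hE : C * (2 * x) / Real.log (2 * x) ^ 4 ≤ C * (2 * x) / Real.log x ^ 4 := by
    apply div_le_div_of_nonneg_left (by positivity) (by positivity)
    exact pow_le_pow_left₀ hl.le hl2 4
  have h1 : (x : ℝ) / e - 4 * C * x / Real.log x ^ 4 ≤ S := by
    have a1 := (abs_le.1 hA).1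
    have b1 := (abs_le.1 hB).2
    rw [hdiff] at a1
    have h2 : (((2 * x : ℕ) : ℝ)) / (Nat.totient e : ℝ) = x / (Nat.totient e : ℝ) + x / (Nat.totient e : ℝ) := by
      push_cast; ring
    have h3 : (x : ℝ) / e ≤ x / (Nat.totient e : ℝ) := div_le_div_of_nonneg_left hx0.le hφ hφe
    have h4 : 4 * C * x / Real.log x ^ 4 = C * (2 * x) / Real.log x ^ 4 + C * (2 * x) / Real.log x ^ 4 := by ring
    rw [h2] at a1
    rw [h4]
    linarith
  have h2 : 4 * C * x / Real.log x ^ 4 ≤ x / (4 * Real.log x ^ 2) := by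
    have h3 : 16 * C ≤ Real.log x ^ 2 := by
      have := pow_le_pow_left₀ (by positivity) hx3 2
      rw [mul_pow, Real.sq_sqrt hC.le] at this
      linarith
    rw [div_le_div_iff₀ (by positivity) (by positivity)]
    have h4 : 0 ≤ x * Real.log x ^ 2 := by positivity
    calc 4 * C * x * (4 * Real.log x ^ 2) = 16 * C * (x * Real.log x ^ 2) := by ring
      _ ≤ Real.log x ^ 2 * (x * Real.log x ^ 2) := mul_le_mul_of_nonneg_right h3 h4
      _ = x * Real.log x ^ 4 := by ring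
  have h3 := SWE_small x hx2
  have h4 : (x : ℝ) / (4 * Real.log x ^ 2) + x / (4 * Real.log x ^ 2) ≤ x / (2 * e) := by
    have : (x : ℝ) / (4 * Real.log x ^ 2) + x / (4 * Real.log x ^ 2) = x / (2 * Real.log x ^ 2) := by
      field_simp; ring
    rw [this]
    exact div_le_div_of_nonneg_left hx0.le (by positivity) (by linarith)
  have h5 : (x : ℝ) / (2 * e) ≤ c * Real.log (2 * x) := by
    have h6 : (x : ℝ) / e = x / (2 * e) + x / (2 * e) := by field_simp; ring
    linarith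
  have hcn : 0 ≤ c := by rw [hc]; positivity
  have h7 : (x : ℝ) / (2 * e) ≤ c * (2 * Real.log x) :=
    h5.trans (mul_le_mul_of_nonneg_left hl3 hcn)
  rw [div_le_iff₀ (by positivity)]
  rw [div_le_iff₀ (by positivity)] at h7
  linarith

end Pool.Agent.RG
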